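import Pool.Agent.Q189.Klam3

/-!
# MP_7f2f72_gt: if every line through a point bisects the perimeter of a convex closed curve, then
the curve is centrally symmetric
-/

set_option autoImplicit false

open MeasureTheory

namespace Pool.Agent.Results.MP_7f2f72_gt.Klamkin

/-- **Theorem.** Let `K` be a compact convex set in the Euclidean plane with nonempty interior, let
`C = frontier K` be its boundary curve and let `O` be any point of the plane. Suppose that every
line through `O` bisects the perimeter of `C`: for every `v ≠ 0`, the parts of `C` in the two open
half-planes `{x | 0 < ⟪x - O, v⟫}` and `{x | ⟪x - O, v⟫ < 0}` have the same length (one-dimensional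
Hausdorff measure). Then the reflection `x ↦ 2 O - x` maps `C` onto itself. -/
theorem result (K : Set (EuclideanSpace ℝ (Fin 2))) (hK : IsCompact K) (hconv : Convex ℝ K)
    (hint : (interior K).Nonempty) (O : EuclideanSpace ℝ (Fin 2))
    (h : ∀ v : EuclideanSpace ℝ (Fin 2), v ≠ 0 →
      Measure.hausdorffMeasure 1 (frontier K ∩ {x | 0 < inner ℝ (x - O) v}) =
        Measure.hausdorffMeasure 1 (frontier K ∩ {x | inner ℝ (x - O) v < 0})) :
    (fun x => (2 : ℝ) • O - x) '' frontier K = frontier K :=
  Q189.Klam.klamkin hK hconv hint h

end Pool.Agent.Results.MP_7f2f72_gt.Klamkin
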